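import Pool.Agent.Y6.S.Conv
import Pool.Agent.Y710.EP.PERT5

/-! Rapidly decreasing vectors (job SK-RAP): stability under the operations of the normal form. -/

open Set Filter Topology MeasureTheory

set_option autoImplicit false

namespace Pool.Agent.Y68.SK

open Pool.Agent.Y5.D Pool.Agent.Y5.E Pool.Agent.Y6.S
open Pool.Agent.Y6.N (lin)
open Pool.Agent.Y5.S2 (Sq6 Rot2 Om Az Dis2 NSol2 Init2)
open Pool.Agent.Y710.EP (nm Pg Pl Pu Pm Po Nice L_one L_nn L_mono lam_one M_nn om_le size_om wsum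
  Pm_le Po_le nm_single)
open Pool.Agent.Y8.EP (Sq5)

variable {J : Type} {g : J → ℕ} {κ μ lam Λ M : ℝ} {L C ℓ : ℕ → ℝ} {B : ℕ → ℕ → ℝ}
  {c : Ix J → Ix J → Ix J → ℝ}

/-- `L ^ k * |z| ≤ K` -/
def Bd (g : J → ℕ) (L : ℕ → ℝ) (k : ℕ) (K : ℝ) (z : Ix J → ℝ) : Prop :=
  ∀ a, L (gr g a) ^ k * |z a| ≤ K

/-- the summable weights -/
noncomputable def wr (g : J → ℕ) (L : ℕ → ℝ) (a : Ix J) : ℝ := L (gr g a) * (L (gr g a))⁻¹ ^ 4

theorem Lp (hs : Sq5 κ μ lam Λ M L C ℓ B) (n : ℕ) : 0 < L n := lt_of_lt_of_le one_pos (L_one hs n)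

theorem wr_nn (hs : Sq5 κ μ lam Λ M L C ℓ B) (a : Ix J) : 0 ≤ wr g L a := by
  have := Lp hs (gr g a)
  unfold wr
  positivity

theorem Bd.nn (hs : Sq5 κ μ lam Λ M L C ℓ B) {k : ℕ} {K : ℝ} {z : Ix J → ℝ}
    (h : Bd g L k K z) : 0 ≤ K := by
  have h1 := h (Sum.inl 0)
  have h2 := Lp hs (gr g (Sum.inl 0 : Ix J))
  exact le_trans (by positivity) h1

theorem Bd.down (hs : Sq5 κ μ lam Λ M L C ℓ B) {k k' : ℕ} {K : ℝ} {z : Ix J → ℝ}
    (h : Bd g L k K z) (hk : k' ≤ k) : Bd g L k' K z := fun a =>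
  (mul_le_mul_of_nonneg_right (pow_le_pow_right₀ (L_one hs _) hk) (abs_nonneg _)).trans (h a)

theorem Bd.mono (hs : Sq5 κ μ lam Λ M L C ℓ B) {k : ℕ} {K : ℝ} {z y : Ix J → ℝ}
    (h : Bd g L k K z) (hy : ∀ a, |y a| ≤ |z a|) : Bd g L k K y := fun a =>
  (mul_le_mul_of_nonneg_left (hy a) (pow_nonneg (L_nn hs _) _)).trans (h a)

theorem Bd.wr' (hs : Sq5 κ μ lam Λ M L C ℓ B) {k : ℕ} {K : ℝ} {z : Ix J → ℝ}
    (h : Bd g L (k + 3) K z) (a : Ix J) : L (gr g a) ^ k * |z a| ≤ K * wr g L a := by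
  have h1 := Lp hs (gr g a)
  have h2 := h a
  unfold wr
  have e1 : L (gr g a) ^ k * |z a| = (L (gr g a) ^ (k + 3) * |z a|) * (L (gr g a))⁻¹ ^ 3 := by
    rw [pow_add]
    field_simp
  have e2 : L (gr g a) * (L (gr g a))⁻¹ ^ 4 = (L (gr g a))⁻¹ ^ 3 := by
    field_simp
  rw [e1, e2]
  exact mul_le_mul_of_nonneg_right h2 (by positivity)

/-! ### Transfer -/

theorem transfer {op : (Ix J → ℝ) → Ix J → ℝ}
    (h : ∀ k, ∃ k', ∃ F : ℝ → ℝ, ∀ K z, Bd g L k' K z → Bd g L k (F K) (op z)) :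
    (∀ T u, RpU g L T u → RpU g L T (fun i t => op (fun b => u b t) i)) ∧
    ∀ z, Rp g L z → Rp g L (op z) := by
  constructor
  · intro T u hu k T' hT
    obtain ⟨k', F, hF⟩ := h k
    obtain ⟨K, hK⟩ := hu k' T' hT
    exact ⟨F K, fun t ht => hF K _ (hK t ht)⟩
  · intro z hz k
    obtain ⟨k', F, hF⟩ := h k
    obtain ⟨K, hK⟩ := hz k'
    exact ⟨F K, hF K z hK⟩

theorem transfer2 {op : (Ix J → ℝ) → (Ix J → ℝ) → Ix J → ℝ}
    (h : ∀ k, ∃ k', ∃ F : ℝ → ℝ → ℝ, ∀ K K' z y, Bd g L k' K z → Bd g L k' K' y →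
      Bd g L k (F K K') (op z y)) :
    (∀ T u v, RpU g L T u → RpU g L T v →
      RpU g L T (fun i t => op (fun b => u b t) (fun b => v b t) i)) ∧
    ∀ z y, Rp g L z → Rp g L y → Rp g L (op z y) := by
  constructor
  · intro T u v hu hv k T' hT
    obtain ⟨k', F, hF⟩ := h k
    obtain ⟨K, hK⟩ := hu k' T' hT
    obtain ⟨K', hK'⟩ := hv k' T' hT
    exact ⟨F K K', fun t ht => hF K K' _ _ (hK t ht) (hK' t ht)⟩
  · intro z y hz hy k
    obtain ⟨k', F, hF⟩ := h k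
    obtain ⟨K, hK⟩ := hz k'
    obtain ⟨K', hK'⟩ := hy k'
    exact ⟨F K K', hF K K' z y hK hK'⟩

/-! ### Operations -/

theorem Bd.rt' (hs : Sq5 κ μ lam Λ M L C ℓ B) {σ : J → J} {τ : J → ℝ} (hr : Rot2 g σ τ) {k : ℕ}
    {K : ℝ} {z : Ix J → ℝ} (h : Bd g L k K z) : Bd g L k (lam ^ k * K) (rt σ τ z) := by
  have hl := lam_one hs
  have hK := h.nn hs
  rintro (n | j)
  · show L n ^ k * |(0 : ℝ)| ≤ _
    rw [abs_zero, mul_zero]
    positivity
  · show L (g j) ^ k * |τ j * z (Sum.inr (σ j))| ≤ _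
    have h1 : |τ j| = 1 := by
      have := hr.unit j
      rcases sq_eq_one_iff.1 this with h2 | h2 <;> simp [h2]
    rw [abs_mul, h1, one_mul]
    have h2 : g j ≤ g (σ j) + 1 := by
      have := hr.grp j
      omega
    have h3 : L (g j) ≤ lam * L (g (σ j)) := by
      rw [← hs.L_succ]
      exact L_mono hs h2
    have h4 := h (Sum.inr (σ j))
    have h5 : L (g j) ^ k ≤ lam ^ k * L (g (σ j)) ^ k := by
      rw [← mul_pow]
      exact pow_le_pow_left₀ (L_nn hs _) h3 k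
    calc L (g j) ^ k * |z (Sum.inr (σ j))|
        ≤ lam ^ k * L (g (σ j)) ^ k * |z (Sum.inr (σ j))| :=
          mul_le_mul_of_nonneg_right h5 (abs_nonneg _)
      _ = lam ^ k * (L (g (σ j)) ^ k * |z (Sum.inr (σ j))|) := by ring
      _ ≤ lam ^ k * K := mul_le_mul_of_nonneg_left h4 (by positivity)

theorem Bd.wt' (hs : Sq5 κ μ lam Λ M L C ℓ B) {ω : ℕ → ℝ} {X : ℝ} (hω : ∀ q, |ω q| ≤ X) {k : ℕ}
    {K : ℝ} {z : Ix J → ℝ} (h : Bd g L k K z) : Bd g L k (X * K) (wt g ω z) := by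
  have hX : 0 ≤ X := (abs_nonneg _).trans (hω 0)
  have hK := h.nn hs
  rintro (n | j)
  · show L n ^ k * |(0 : ℝ)| ≤ _
    rw [abs_zero, mul_zero]
    positivity
  · show L (g j) ^ k * |ω (g j / 2) * z (Sum.inr j)| ≤ _
    rw [abs_mul]
    have h4 : L (g j) ^ k * |z (Sum.inr j)| ≤ K := h (Sum.inr j)
    have h5 := pow_nonneg (L_nn hs (g j)) k
    calc L (g j) ^ k * (|ω (g j / 2)| * |z (Sum.inr j)|)
        = |ω (g j / 2)| * (L (g j) ^ k * |z (Sum.inr j)|) := by ring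
      _ ≤ X * K := mul_le_mul (hω _) h4 (by positivity) hX

theorem Bd.bl' (hK : Ker g Λ M L C B c) (hs : Sq5 κ μ lam Λ M L C ℓ B) {k : ℕ}
    {K K' : ℝ} {u v : Ix J → ℝ} (hu : Bd g L (k + 4) K u) (hv : Bd g L (k + 4) K' v) :
    Bd g L k (M * lam ^ k * (K * K' * ((∑' a, wr g L a) * ∑' a, wr g L a))) (bl c u v) := by
  intro i
  have hl := lam_one hs
  have hM := M_nn hs
  have hK0 := hu.nn hs
  have hK1 := hv.nn hs
  have hw : Summable (wr g L) := wsum hK hs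
  have hw2 : Summable (fun p : Ix J × Ix J => wr g L p.1 * wr g L p.2) :=
    hw.mul_of_nonneg hw (fun a => wr_nn hs a) (fun a => wr_nn hs a)
  have hu3 : Bd g L (k + 3) K u := hu.down hs (by omega)
  have hv3 : Bd g L (k + 1 + 3) K' v := hv.down hs (by omega)
  have hb : ∀ p : Ix J × Ix J, ‖L (gr g i) ^ k * (c i p.1 p.2 * u p.1 * v p.2)‖ ≤
      M * lam ^ k * (K * K') * (wr g L p.1 * wr g L p.2) := by
    rintro ⟨a, b⟩
    have hLi := Lp hs (gr g i)
    have hLa := Lp hs (gr g a)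
    have hLb := Lp hs (gr g b)
    have ha1 := L_one hs (gr g a)
    have hb1 := L_one hs (gr g b)
    have wa := wr_nn (g := g) hs a
    have wb := wr_nn (g := g) hs b
    show ‖L (gr g i) ^ k * (c i a b * u a * v b)‖ ≤
      M * lam ^ k * (K * K') * (wr g L a * wr g L b)
    by_cases hc : c i a b = 0
    · rw [hc, zero_mul, zero_mul, mul_zero, norm_zero]
      positivity
    · have h1 := (hK.near i a b hc).1
      have h2 : L (gr g i) ≤ lam * (L (gr g a) * L (gr g b)) := by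
        refine (L_mono hs h1).trans ?_
        rw [hs.L_succ]
        refine mul_le_mul_of_nonneg_left ?_ (by linarith)
        rcases le_total (gr g a) (gr g b) with h3 | h3
        · rw [max_eq_right h3]
          exact le_mul_of_one_le_left hLb.le ha1
        · rw [max_eq_left h3]
          exact le_mul_of_one_le_right hLa.le hb1
      have h3 : L (gr g i) ^ k ≤ lam ^ k * (L (gr g a) ^ k * L (gr g b) ^ k) := by
        rw [← mul_pow, ← mul_pow]
        exact pow_le_pow_left₀ hLi.le h2 k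
      have h4 : |c i a b| ≤ M * L (gr g b) := (size_om hK i a b).trans ((om_le hs _ _ _).trans
        (mul_le_mul_of_nonneg_left (L_mono hs (min_le_right _ _)) hM))
      have h5 := hu3.wr' hs a
      have h6 := hv3.wr' hs b
      rw [Real.norm_eq_abs, abs_mul, abs_mul, abs_mul, abs_of_nonneg (pow_nonneg hLi.le k)]
      calc L (gr g i) ^ k * (|c i a b| * |u a| * |v b|)
          ≤ lam ^ k * (L (gr g a) ^ k * L (gr g b) ^ k) * ((M * L (gr g b)) * |u a| * |v b|) := by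
            gcongr
        _ = M * lam ^ k * ((L (gr g a) ^ k * |u a|) * (L (gr g b) ^ (k + 1) * |v b|)) := by ring
        _ ≤ M * lam ^ k * ((K * wr g L a) * (K' * wr g L b)) := by
            gcongr
        _ = _ := by ring
  have h1 := tsum_of_norm_bounded (hw2.mul_left (M * lam ^ k * (K * K'))).hasSum hb
  rw [tsum_mul_left, tsum_mul_left, ← hw.tsum_mul_tsum hw hw2, norm_mul, Real.norm_eq_abs,
    Real.norm_eq_abs, abs_of_nonneg (pow_nonneg (L_nn hs _) k)] at h1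
  refine h1.trans (le_of_eq ?_)
  ring

theorem D_single {a D₁ : ℝ} {D : Ix J → Ix J → ℝ} (hD : Dis2 g a D₁ κ L ℓ D) (i b : Ix J)
    (h : gr g i = gr g b) : |D i b| ≤ D₁ * (κ ^ gr g b * L (gr g b)) := by
  classical
  have h1 := hD.up (gr g b) (Pi.single i 1) (Pi.single b 1)
    (fun i' hi => Pi.single_eq_of_ne (fun h' => hi (by rw [h', h])) _)
    (fun i' hi => Pi.single_eq_of_ne (fun h' => hi (by rw [h'])) _)
  rw [nm_single, nm_single, Real.sqrt_one, mul_one, mul_one] at h1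
  have h2 : ∑' p : Ix J × Ix J, D p.1 p.2 * (Pi.single i (1 : ℝ) : Ix J → ℝ) p.1 *
      (Pi.single b (1 : ℝ) : Ix J → ℝ) p.2 = D i b := by
    rw [tsum_eq_single (i, b)]
    · simp
    · rintro ⟨i', b'⟩ h3
      by_cases h4 : i' = i
      · by_cases h5 : b' = b
        · exact absurd (by rw [h4, h5]) h3
        · simp [Pi.single_eq_of_ne h5]
      · simp [Pi.single_eq_of_ne h4]
  rw [h2] at h1
  exact h1

theorem Bd.lin' (hK : Ker g Λ M L C B c) (hs : Sq5 κ μ lam Λ M L C ℓ B) {ℓ' : ℕ → ℝ}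
    {a D₁ : ℝ} {D : Ix J → Ix J → ℝ} (hD : Dis2 g a D₁ κ L ℓ' D) {k : ℕ}
    {K : ℝ} {u : Ix J → ℝ} (hu : Bd g L (k + 4) K u) :
    Bd g L k (|D₁| * K * ∑' a, wr g L a) (lin D u) := by
  intro i
  have hK0 := hu.nn hs
  have hw : Summable (wr g L) := wsum hK hs
  have hu3 : Bd g L (k + 1 + 3) K u := hu.down hs (by omega)
  have hb : ∀ b : Ix J, ‖L (gr g i) ^ k * (D i b * u b)‖ ≤ |D₁| * K * wr g L b := by
    intro b
    have hLb := Lp hs (gr g b)
    have wb := wr_nn (g := g) hs b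
    by_cases hc : D i b = 0
    · rw [hc, zero_mul, mul_zero, norm_zero]
      positivity
    · have h1 := hD.blk i b hc
      have h2 := D_single hD i b h1
      have h3 : D₁ * (κ ^ gr g b * L (gr g b)) ≤ |D₁| * (1 * L (gr g b)) := by
        refine mul_le_mul (le_abs_self _) ?_ (mul_nonneg (pow_nonneg hs.κ0.le _) hLb.le)
          (abs_nonneg _)
        exact mul_le_mul_of_nonneg_right (pow_le_one₀ hs.κ0.le hs.κ1) hLb.le
      have h6 := hu3.wr' hs b
      rw [Real.norm_eq_abs, abs_mul, abs_mul, h1, abs_of_nonneg (pow_nonneg hLb.le k)]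
      calc L (gr g b) ^ k * (|D i b| * |u b|)
          ≤ L (gr g b) ^ k * ((|D₁| * (1 * L (gr g b))) * |u b|) := by
            gcongr
            exact h2.trans h3
        _ = |D₁| * (L (gr g b) ^ (k + 1) * |u b|) := by ring
        _ ≤ |D₁| * (K * wr g L b) := by gcongr
        _ = _ := by ring
  have h1 := tsum_of_norm_bounded (hw.mul_left (|D₁| * K)).hasSum hb
  rw [tsum_mul_left, tsum_mul_left, norm_mul, Real.norm_eq_abs,
    Real.norm_eq_abs, abs_of_nonneg (pow_nonneg (L_nn hs _) k)] at h1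
  exact h1

theorem nice_of_rp (hK : Ker g Λ M L C B c) (hs : Sq5 κ μ lam Λ M L C ℓ B) {z : Ix J → ℝ}
    (hz : Rp g L z) : Nice g L z := by
  obtain ⟨K, h⟩ := hz 4
  have h1 : Bd g L (1 + 3) K z := h
  refine Summable.of_nonneg_of_le (fun a => mul_nonneg (L_nn hs _) (abs_nonneg _)) (fun a => ?_)
    ((wsum hK hs).mul_left K)
  have h2 := h1.wr' hs a
  rw [pow_one] at h2
  exact h2

theorem rpu_of_rapid {T : ℝ} {z : Ix J → ℝ → ℝ} (hs : Sq5 κ μ lam Λ M L C ℓ B)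
    (h : Rapid (rI L g) T z) : RpU g L T z := by
  intro k T' hT
  obtain ⟨X, hX⟩ := h k T' hT
  refine ⟨√X, fun t ht a => ?_⟩
  obtain ⟨h1, h2⟩ := hX t ht
  have h3 : (rI L g a ^ k * z a t) ^ 2 ≤ X := (h1.le_tsum a fun _ _ => sq_nonneg _).trans h2
  have h4 : |rI L g a ^ k * z a t| ≤ √X := Real.abs_le_sqrt h3
  have h5 : rI L g a = L (gr g a) := rfl
  rw [h5, abs_mul, abs_of_nonneg (pow_nonneg (L_nn hs (gr g a)) k)] at h4
  exact h4

theorem t_RAP : Pool.Agent.Y6.S.S_RAP := by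
  intro J g σ τ κ μ lam Λ M a D₁ L C ℓ B D c hK h6 hr hD
  have hs := sq65 h6
  have hPm := transfer (g := g) (L := L) (op := Pm) fun k => ⟨k, id, fun K z h =>
    h.mono hs (Pm_le z)⟩
  have hPo := transfer (g := g) (L := L) (op := Po) fun k => ⟨k, id, fun K z h =>
    h.mono hs (Po_le z)⟩
  have hrt := transfer (g := g) (L := L) (op := rt σ τ) fun k => ⟨k, fun K => lam ^ k * K,
    fun K z h => h.rt' hs hr⟩
  have hwt := fun (ω : ℕ → ℝ) (X : ℝ) (hω : ∀ q, |ω q| ≤ X) =>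
    transfer (g := g) (L := L) (op := wt g ω) fun k => ⟨k, fun K => X * K,
      fun K z h => h.wt' hs hω⟩
  have hbl := transfer2 (g := g) (L := L) (op := bl c) fun k => ⟨k + 4, _,
    fun K K' z y h h' => h.bl' hK hs h'⟩
  have hlin := transfer (g := g) (L := L) (op := lin D) fun k => ⟨k + 4, _,
    fun K z h => h.lin' hK hs hD⟩
  refine ⟨fun z => nice_of_rp hK hs, fun T u hu t ht k => ?_, fun T Q z hz =>
    rpu_of_rapid hs hz.rapid, hPm.1, hPo.1, hrt.1, fun T u ω X hω => (hwt ω X hω).1 T u, hbl.1,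
    hlin.1, hPm.2, hPo.2, hrt.2, fun z ω X hω => (hwt ω X hω).2 z, hbl.2, hlin.2, fun z hz k => ?_⟩
  · obtain ⟨K, hK'⟩ := hu k t ht.2
    exact ⟨K, hK' t ⟨ht.1, le_rfl⟩⟩
  · obtain ⟨K, h1⟩ := hbl.2 z z hz hz k
    obtain ⟨K', h2⟩ := hlin.2 z hz k
    refine ⟨K + K', fun b => ?_⟩
    have h3 := h1 b
    have h4 := h2 b
    have h5 : |rr D c z b| ≤ |bl c z z b| + |lin D z b| := abs_sub _ _
    have h6 := pow_nonneg (L_nn hs (gr g b)) k
    calc L (gr g b) ^ k * |rr D c z b| ≤ L (gr g b) ^ k * (|bl c z z b| + |lin D z b|) :=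
          mul_le_mul_of_nonneg_left h5 h6
      _ ≤ K + K' := by rw [mul_add]; exact add_le_add h3 h4

end Pool.Agent.Y68.SK
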